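import Mathlib

namespace Pool.Agent.Results.MP_472c23_co.Counter

open Polynomial

/-- `[m]! = (1-q)(1-q^2)...(1-q^m)` in `ℤ[q]`. -/
noncomputable def qf (m : ℕ) : ℤ[X] := ∏ k ∈ Finset.range m, (1 - X ^ (k + 1))

/-- `P` equals the rational function `P_{4,n}` (denominators cleared). -/
def IsP4 (n : ℕ) (P : ℤ[X]) : Prop :=
  P * (((1 - X ^ (2 * n + 3)) * (1 - X ^ (2 * n + 5)) * (1 - X ^ (2 * n + 7))) *
      (qf (3 * n) * qf (2 * n) ^ 2)) =
    ((1 - X ^ 3) * (1 - X ^ 5) * (1 - X ^ 7)) * (qf (6 * n) * qf n)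

/-- `P` equals the rational function `P_{5,n}` (denominators cleared). -/
def IsP5 (n : ℕ) (P : ℤ[X]) : Prop :=
  P * (((1 - X ^ (2 * n + 1)) * (1 - X ^ (2 * n + 3)) * (1 - X ^ (2 * n + 5)) *
      (1 - X ^ (2 * n + 7))) * (qf (3 * n) * qf (2 * n) ^ 2)) =
    ((1 - X ^ 3) ^ 2 * (1 - X ^ 5) * (1 - X ^ 7)) * (qf (6 * n) * qf n)

/-- The power series `S` is the expansion of `P_{4,n}` (denominators cleared). -/
def IsS4 (n : ℕ) (S : PowerSeries ℤ) : Prop :=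
  S * ((((1 - X ^ (2 * n + 3)) * (1 - X ^ (2 * n + 5)) * (1 - X ^ (2 * n + 7))) *
      (qf (3 * n) * qf (2 * n) ^ 2) : ℤ[X]) : PowerSeries ℤ) =
    ((((1 - X ^ 3) * (1 - X ^ 5) * (1 - X ^ 7)) * (qf (6 * n) * qf n) : ℤ[X]) : PowerSeries ℤ)

/-- The power series `S` is the expansion of `P_{5,n}` (denominators cleared). -/
def IsS5 (n : ℕ) (S : PowerSeries ℤ) : Prop :=
  S * ((((1 - X ^ (2 * n + 1)) * (1 - X ^ (2 * n + 3)) * (1 - X ^ (2 * n + 5)) *
      (1 - X ^ (2 * n + 7))) * (qf (3 * n) * qf (2 * n) ^ 2) : ℤ[X]) : PowerSeries ℤ) =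
    ((((1 - X ^ 3) ^ 2 * (1 - X ^ 5) * (1 - X ^ 7)) * (qf (6 * n) * qf n) : ℤ[X]) : PowerSeries ℤ)

def ev : ℕ → ℤ
  | 0 => 1
  | m + 1 => ev m * (1 - 2 ^ (m + 1))

lemma eval_qf (m : ℕ) : (qf m).eval 2 = ev m := by
  induction m with
  | zero => simp [qf, ev]
  | succ m ih =>
    have : qf (m + 1) = qf m * (1 - X ^ (m + 1)) := by simp [qf, Finset.prod_range_succ]
    rw [this, eval_mul, ih]
    simp [ev]

lemma nd4 : ¬ ((((1 - 2 ^ 23) * (1 - 2 ^ 25) * (1 - 2 ^ 27)) * (ev 30 * ev 20 ^ 2) : ℤ) ∣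
    ((1 - 2 ^ 3) * (1 - 2 ^ 5) * (1 - 2 ^ 7)) * (ev 60 * ev 10)) := by
  decide +kernel

lemma nd5 : ¬ ((((1 - 2 ^ 21) * (1 - 2 ^ 23) * (1 - 2 ^ 25) * (1 - 2 ^ 27)) *
    (ev 30 * ev 20 ^ 2) : ℤ) ∣
    ((1 - 2 ^ 3) ^ 2 * (1 - 2 ^ 5) * (1 - 2 ^ 7)) * (ev 60 * ev 10)) := by
  decide +kernel

lemma poly : (¬ ∃ P : ℤ[X], IsP4 10 P) ∧ (¬ ∃ P : ℤ[X], IsP5 10 P) := by
  constructor
  · rintro ⟨P, h⟩
    apply nd4
    have h2 := congrArg (eval (2 : ℤ)) h
    simp only [eval_mul, eval_sub, eval_pow, eval_one, eval_X, eval_qf] at h2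
    exact ⟨P.eval 2, by rw [← h2, mul_comm]⟩
  · rintro ⟨P, h⟩
    apply nd5
    have h2 := congrArg (eval (2 : ℤ)) h
    simp only [eval_mul, eval_sub, eval_pow, eval_one, eval_X, eval_qf] at h2
    exact ⟨P.eval 2, by rw [← h2, mul_comm]⟩


noncomputable def pl (L : List ℕ) : ℤ[X] := (L.map (fun k => (1 - X ^ k : ℤ[X]))).prod

def rg (m : ℕ) : List ℕ := (List.range m).map (· + 1)

lemma pl_append (A B : List ℕ) : pl (A ++ B) = pl A * pl B := by simp [pl]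

lemma qf_pl (m : ℕ) : qf m = pl (rg m) := by
  induction m with
  | zero => simp [qf, pl, rg]
  | succ m ih =>
    have : qf (m + 1) = qf m * (1 - X ^ (m + 1)) := by simp [qf, Finset.prod_range_succ]
    rw [this, ih]
    simp [pl, rg, List.range_succ]

lemma fac (k : ℕ) (hk : 0 < k) (hk2 : k ≤ 60) : (1 - X ^ k : ℤ[X]) =
    - ∏ d ∈ Finset.Icc 1 60, cyclotomic d ℤ ^ (if d ∣ k then 1 else 0) := by
  have h1 : ∏ d ∈ Finset.Icc 1 60, cyclotomic d ℤ ^ (if d ∣ k then 1 else 0) =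
      ∏ d ∈ (Finset.Icc 1 60).filter (· ∣ k), cyclotomic d ℤ := by
    rw [Finset.prod_filter]
    apply Finset.prod_congr rfl
    intro d _
    split_ifs <;> simp
  have h2 : (Finset.Icc 1 60).filter (· ∣ k) = Nat.divisors k := by
    ext d
    simp only [Finset.mem_filter, Finset.mem_Icc, Nat.mem_divisors]
    constructor
    · rintro ⟨_, h⟩
      exact ⟨h, hk.ne'⟩
    · rintro ⟨h, _⟩
      exact ⟨⟨Nat.pos_of_dvd_of_pos h hk, (Nat.le_of_dvd hk h).trans hk2⟩, h⟩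
  rw [h1, h2, prod_cyclotomic_eq_X_pow_sub_one hk]
  ring

def cnt (d : ℕ) : List ℕ → ℕ
  | [] => 0
  | k :: L => (if d ∣ k then 1 else 0) + cnt d L

lemma pl_eq (L : List ℕ) (h : ∀ k ∈ L, 0 < k ∧ k ≤ 60) :
    pl L = (-1) ^ L.length * ∏ d ∈ Finset.Icc 1 60, cyclotomic d ℤ ^ cnt d L := by
  induction L with
  | nil => simp [pl, cnt]
  | cons k L ih =>
    have h1 := h k (by simp)
    have h2 := ih (fun x hx => h x (by simp [hx]))
    have : pl (k :: L) = (1 - X ^ k) * pl L := by simp [pl]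
    rw [this, h2, fac k h1.1 h1.2]
    simp only [cnt, pow_add, Finset.prod_mul_distrib, List.length_cons]
    ring

lemma pl_dvd (A B : List ℕ) (hA : ∀ k ∈ A, 0 < k ∧ k ≤ 60) (hB : ∀ k ∈ B, 0 < k ∧ k ≤ 60)
    (h : ∀ d ∈ Finset.Icc 1 60, cnt d A ≤ cnt d B) : pl A ∣ pl B := by
  rw [pl_eq A hA, pl_eq B hB]
  have hu : IsUnit ((-1 : ℤ[X]) ^ A.length) := (isUnit_neg_one).pow _
  rw [hu.mul_left_dvd]
  exact Dvd.dvd.mul_left (Finset.prod_dvd_prod_of_dvd _ _ (fun d hd => pow_dvd_pow _ (h d hd))) _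

lemma key (D N : ℤ[X]) (hD : D.eval 2 ≠ 0) (hdvd : D * (1 - X ^ 3) ∣ N * (1 - X ^ 9))
    (hno : ¬ ∃ P : ℤ[X], P * D = N) :
    ¬ ∃ S : PowerSeries ℤ, (∀ i, 0 ≤ PowerSeries.coeff i S) ∧
      S * (D : PowerSeries ℤ) = (N : PowerSeries ℤ) := by
  rintro ⟨S, hS, h⟩
  obtain ⟨R, hR⟩ := hdvd
  have hne : (D * (1 - X ^ 3) : ℤ[X]) ≠ 0 := by
    intro h0
    have := congrArg (eval (2 : ℤ)) h0
    simp [hD] at this
  have hne' : ((D * (1 - X ^ 3) : ℤ[X]) : PowerSeries ℤ) ≠ 0 := by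
    rwa [Ne, Polynomial.coe_eq_zero_iff]
  have h3 : S * PowerSeries.X ^ 6 + S * PowerSeries.X ^ 3 + S = (R : PowerSeries ℤ) := by
    apply mul_left_cancel₀ hne'
    rw [← Polynomial.coe_mul, ← hR]
    simp only [Polynomial.coe_mul, Polynomial.coe_sub, Polynomial.coe_one, Polynomial.coe_pow,
      Polynomial.coe_X, ← h]
    ring
  have h4 : ∀ m, R.natDegree < m → PowerSeries.coeff m S = 0 := by
    intro m hm
    have e := congrArg (PowerSeries.coeff (m + 6)) h3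
    have e2 : PowerSeries.coeff (m + 6) (S * PowerSeries.X ^ 3) = PowerSeries.coeff (m + 3) S :=
      PowerSeries.coeff_mul_X_pow S 3 (m + 3)
    rw [map_add, map_add, PowerSeries.coeff_mul_X_pow, e2, Polynomial.coeff_coe,
      Polynomial.coeff_eq_zero_of_natDegree_lt (by omega)] at e
    have a := hS m
    have b := hS (m + 3)
    have c := hS (m + 6)
    omega
  apply hno
  refine ⟨PowerSeries.trunc (R.natDegree + 1) S, ?_⟩
  have h5 : ((PowerSeries.trunc (R.natDegree + 1) S : ℤ[X]) : PowerSeries ℤ) = S := by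
    ext m
    rw [Polynomial.coeff_coe, PowerSeries.coeff_trunc]
    split_ifs with hm
    · rfl
    · exact (h4 m (by omega)).symm
  apply Polynomial.coe_injective ℤ
  simp only [Polynomial.coe_mul, h5, h]

theorem result : ((¬ ∃ P : ℤ[X], IsP4 10 P) ∧ (¬ ∃ P : ℤ[X], IsP5 10 P)) ∧
    (¬ ∃ S : PowerSeries ℤ, (∀ i, 0 ≤ PowerSeries.coeff i S) ∧ IsS4 10 S) ∧
    (¬ ∃ S : PowerSeries ℤ, (∀ i, 0 ≤ PowerSeries.coeff i S) ∧ IsS5 10 S) := by
  refine ⟨poly, key _ _ ?_ ?_ poly.1, key _ _ ?_ ?_ poly.2⟩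
  · simp only [eval_mul, eval_sub, eval_pow, eval_one, eval_X, eval_qf]
    decide +kernel
  · have := pl_dvd ([23, 25, 27, 3] ++ (rg 30 ++ (rg 20 ++ rg 20))) ([3, 5, 7, 9] ++ (rg 60 ++ rg 10))
      (by decide +kernel) (by decide +kernel) (by decide +kernel)
    simp only [pl_append, ← qf_pl] at this
    simp only [pl, List.map, List.prod_cons, List.prod_nil] at this
    convert this using 1 <;> ring
  · simp only [eval_mul, eval_sub, eval_pow, eval_one, eval_X, eval_qf]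
    decide +kernel
  · have := pl_dvd ([21, 23, 25, 27, 3] ++ (rg 30 ++ (rg 20 ++ rg 20)))
      ([3, 3, 5, 7, 9] ++ (rg 60 ++ rg 10))
      (by decide +kernel) (by decide +kernel) (by decide +kernel)
    simp only [pl_append, ← qf_pl] at this
    simp only [pl, List.map, List.prod_cons, List.prod_nil] at this
    convert this using 1 <;> ring

end Pool.Agent.Results.MP_472c23_co.Counter
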